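import Pool.Agent.Lib.helper10.RedBlue
import Pool.Agent.Lib.helper10.ChipRed

namespace Pool.Agent.Results.MP_f6aff2_lc.NPHard

open Pool.Agent.Cx Finset

open Classical in
/-- a graph with an integer-valued dominating function of weight at most `k` -/
def ZDom (I : List (List Bool) × ℕ) : Prop :=
  IsGraph I.1 ∧ ∃ f : ℕ → ℤ,
    (∀ v < I.1.length, 1 ≤ f v + ∑ u ∈ (range I.1.length).filter (Entry I.1 v), f u) ∧
    ∑ v ∈ range I.1.length, f v ≤ I.2

open Pool.Agent.Chip

def off (L v w : ℕ) : Prop :=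
  (v = L ∧ w < L + 4 ∧ w ≠ L) ∨ (w = L ∧ v < L + 4 ∧ v ≠ L) ∨
  (v = L + 1 ∧ L + 4 ≤ w) ∨ (w = L + 1 ∧ L + 4 ≤ v)

def mult (L A D : ℕ) (μ : ℕ → ℕ → ℕ) (u a : ℕ) : ℕ :=
  if a < A then (if u < L then μ u a else 0) else D - if u < L then lsum A (μ u) else 0

def Rel (L A D : ℕ) (μ : ℕ → ℕ → ℕ) (v w : ℕ) : Prop :=
  (v < L + 6 ∧ w < L + 6 ∧ off L v w) ∨
  (v < L + 6 ∧ L + 6 ≤ w ∧ (w - (L + 6)) % (D + 1) < mult L A D μ v ((w - (L + 6)) / (D + 1))) ∨
  (w < L + 6 ∧ L + 6 ≤ v ∧ (v - (L + 6)) % (D + 1) < mult L A D μ w ((v - (L + 6)) / (D + 1))) ∨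
  (L + 6 ≤ v ∧ L + 6 ≤ w ∧ (v - (L + 6)) / (D + 1) = (w - (L + 6)) / (D + 1) ∧
    (v - (L + 6)) % (D + 1) / 2 ≠ (w - (L + 6)) % (D + 1) / 2)

instance (L A D : ℕ) (μ : ℕ → ℕ → ℕ) (v w : ℕ) : Decidable (Rel L A D μ v w) := by
  unfold Rel off; infer_instance

def build (L A D : ℕ) (μ : ℕ → ℕ → ℕ) : List (List Bool) × ℕ :=
  (mat (List.range (L + 6 + (D + 1) * (A + 1))) fun v w => decide (Rel L A D μ v w), A + 2)

def par (p : ℕ) : ℕ := if p % 2 = 0 then p + 1 else p - 1

lemma sum_par {E p : ℕ} (hE : E % 2 = 0) (hp : p < E) (f : ℕ → ℤ) :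
    f p + ∑ q ∈ range E, (if p / 2 ≠ q / 2 then f q else 0) + f (par p) = ∑ q ∈ range E, f q := by
  have h1 : par p < E ∧ par p ≠ p ∧ par p / 2 = p / 2 := by unfold par; split_ifs <;> omega
  have : ∑ q ∈ range E, (if p / 2 ≠ q / 2 then 0 else f q) = f p + f (par p) := by
    rw [sum_eq_add p (par p) h1.2.1.symm (fun c _ h => if_pos (by
      unfold par at h; split_ifs at h <;> omega)) (by simp [hp]) (by simp [h1.1])]
    simp [h1.2.2]
  rw [add_right_comm, ← this, ← sum_add_distrib]
  exact sum_congr rfl fun q _ => by split_ifs <;> simp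

lemma sum_par' {E : ℕ} (hE : E % 2 = 0) (f : ℕ → ℤ) :
    ∑ q ∈ range E, f (par q) = ∑ q ∈ range E, f q := by
  refine sum_nbij' par par ?_ ?_ ?_ ?_ (fun _ _ => rfl) <;> intro a ha <;>
    simp only [mem_range] at * <;> unfold par <;> split_ifs <;> omega

open Classical in
lemma offs {L v : ℕ} (e : v < L + 6) : (1 : ℤ) ≤
    (if v < L ∨ L + 6 ≤ v then 0 else if v < L + 2 then 2 else -1) +
    (2 * (if off L v L then 1 else 0) + 2 * (if off L v (L + 1) then 1 else 0) -
      (if off L v (L + 2) then 1 else 0) - (if off L v (L + 3) then 1 else 0) -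
      (if off L v (L + 4) then 1 else 0) - if off L v (L + 5) then 1 else 0) := by
  rcases lt_or_ge v L with h | h
  · have h1 : v ≠ L ∧ v ≠ L + 1 ∧ v < L + 4 ∧ ¬ L + 4 ≤ v := by omega
    simp [off, h, h1]
  · obtain ⟨i, rfl⟩ := Nat.exists_eq_add_of_le h
    have : i < 6 := by omega
    interval_cases i <;> simp [off]

section
variable {L A D K : ℕ} {μ : ℕ → ℕ → ℕ}

lemma gen (hD : D = A + 1 + K) (hE : (D + 1) % 2 = 0) (hμ : ∀ u < L, ∑ a ∈ range A, μ u a ≤ D) :
    ZDom (build L A D μ) ↔ ∃ (x : ℕ → ℤ) (g : ℕ → ℕ), (∀ a < A,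
      (D : ℤ) ∣ ∑ u ∈ range L, μ u a * x u - 1 - g a) ∧ ∑ a ∈ range A, g a ≤ K := by
  classical
  have split : ∀ f : ℕ → ℤ, ∑ v ∈ range (L + 6 + (D + 1) * (A + 1)), f v = ∑ u ∈ range (L + 6), f u +
      ∑ a ∈ range (A + 1), ∑ p ∈ range (D + 1), f (L + 6 + ((D + 1) * a + p)) := fun f => by
    rw [sum_range_add, sum_mul_range]
  have lt : ∀ a < A + 1, ∀ p < D + 1, L + 6 + ((D + 1) * a + p) < L + 6 + (D + 1) * (A + 1) :=
    fun a _ p _ => by nlinarith
  have hm : ∀ u, ∑ a ∈ range (A + 1), mult L A D μ u a = D := by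
    intro u
    rw [sum_range_succ, sum_congr rfl (g := fun a => if u < L then μ u a else 0) fun a ha => by
      simp only [mult, if_pos (mem_range.1 ha)]]
    simp only [mult, lt_irrefl, if_false, lsum_eq]
    split_ifs with h
    · have := hμ u h; omega
    · simp
  have hm' : ∀ u, ∀ a < A + 1, mult L A D μ u a ≤ D + 1 := fun u a ha =>
    (single_le_sum (f := mult L A D μ u) (fun _ _ => Nat.zero_le _) (mem_range.2 ha)).trans
      (by rw [hm]; omega)
  have nb : ∀ (f : ℕ → ℤ) (v : ℕ), v < L + 6 + (D + 1) * (A + 1) →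
      ∑ u ∈ (range (build L A D μ).1.length).filter (Entry (build L A D μ).1 v), f u =
      ∑ u ∈ range (L + 6 + (D + 1) * (A + 1)), if Rel L A D μ v u then f u else 0 := by
    intro f v hv
    simp only [build, mat_length, List.length_range, sum_filter, entry_mat]
    exact sum_congr rfl fun u hu => by simp [hv, mem_range.1 hu]
  have nY : ∀ (f : ℕ → ℤ), ∀ a < A + 1, ∀ p < D + 1, f (L + 6 + ((D + 1) * a + p)) +
      ∑ u ∈ range (L + 6 + (D + 1) * (A + 1)),
        (if Rel L A D μ (L + 6 + ((D + 1) * a + p)) u then f u else 0) =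
      ∑ q ∈ range (D + 1), f (L + 6 + ((D + 1) * a + q)) - f (L + 6 + ((D + 1) * a + par p)) +
        ∑ u ∈ range (L + 6), if p < mult L A D μ u a then f u else 0 := by
    intro f a ha p hp
    rw [split, ← sum_par hE hp fun q => f (L + 6 + ((D + 1) * a + q)),
      sum_eq_single a (fun b _ e => sum_eq_zero fun q hq => if_neg ?_) (by simp [ha]),
      sum_congr (s₁ := range (L + 6)) rfl (g := fun u => if p < mult L A D μ u a then f u else 0)
        fun u hu => if_congr ?_ rfl rfl,
      sum_congr (s₁ := range (D + 1)) rfl (g := fun q => if p / 2 ≠ q / 2 then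
        f (L + 6 + ((D + 1) * a + q)) else 0) fun q hq => if_congr ?_ rfl rfl]
    · ring
    all_goals simp only [mem_range] at *
    · simp only [Rel, Nat.add_sub_cancel_left, (divmod hp).1, (divmod hp).2, (divmod hq).1,
        (divmod hq).2, true_and]; omega
    · simp only [Rel, Nat.add_sub_cancel_left, (divmod hp).1, (divmod hp).2]; omega
    · simp only [Rel, Nat.add_sub_cancel_left, (divmod hp).1, (divmod hp).2, (divmod hq).1,
        (divmod hq).2]; omega
  have ext : ∀ (f : ℕ → ℤ), ∀ a < A + 1, ∑ p ∈ range (D + 1), ∑ u ∈ range (L + 6),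
      (if p < mult L A D μ u a then f u else 0) = ∑ u ∈ range (L + 6), mult L A D μ u a * f u := by
    intro f a ha
    rw [sum_comm]
    refine sum_congr rfl fun u _ => ?_
    rw [← sum_lt_ite (hm' u a ha), Nat.cast_sum, sum_mul]
    exact sum_congr rfl fun p hp => by rw [sum_lt_ite (hm' u a ha)]; split_ifs <;> simp
  have lin : ∀ (f : ℕ → ℤ), ∀ a < A, ∑ u ∈ range (L + 6), mult L A D μ u a * f u =
      ∑ u ∈ range L, μ u a * f u := by
    intro f a ha
    rw [sum_range_add, sum_eq_zero (s := range 6) fun u _ => by simp [mult, ha], add_zero]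
    exact sum_congr rfl fun u hu => by simp [mult, ha, mem_range.1 hu]
  have tot : ∀ (f : ℕ → ℤ), ∑ a ∈ range (A + 1), ∑ u ∈ range (L + 6), mult L A D μ u a * f u =
      D * ∑ u ∈ range (L + 6), f u := by
    intro f
    rw [sum_comm, mul_sum]
    exact sum_congr rfl fun u _ => by rw [← sum_mul, ← Nat.cast_sum, hm]
  have hlen : (build L A D μ).1.length = L + 6 + (D + 1) * (A + 1) := by simp [build]
  constructor
  · rintro ⟨-, f, h1, h2⟩
    have h3 : ∀ a < A + 1, (D + 1 : ℤ) ≤ D * ∑ q ∈ range (D + 1), f (L + 6 + ((D + 1) * a + q)) +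
        ∑ u ∈ range (L + 6), mult L A D μ u a * f u := by
      intro a ha
      have := sum_le_sum (s := range (D + 1)) fun p hp => (h1 _ (hlen ▸ lt a ha p (mem_range.1 hp))).trans_eq
        (by rw [nb f _ (lt a ha p (mem_range.1 hp)), nY f a ha p (mem_range.1 hp)])
      rw [sum_add_distrib, sum_sub_distrib, ext f a ha,
        sum_par' hE fun q => f (L + 6 + ((D + 1) * a + q))] at this
      simp only [sum_const, card_range, nsmul_eq_mul] at this
      push_cast at this
      linarith
    refine ⟨f, fun a => (D * ∑ q ∈ range (D + 1), f (L + 6 + ((D + 1) * a + q)) +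
        ∑ u ∈ range (L + 6), mult L A D μ u a * f u - (D + 1)).toNat, fun a ha => ?_, ?_⟩
    · rw [Int.toNat_of_nonneg (by have := h3 a (by omega); omega), lin f a ha]
      exact ⟨1 - ∑ q ∈ range (D + 1), f (L + 6 + ((D + 1) * a + q)), by ring⟩
    · zify
      rw [sum_congr rfl fun a ha => Int.toNat_of_nonneg (by
        have := h3 a (by simp at ha; omega); omega)]
      have h4 := h3 A (by omega)
      have h5 := tot f
      rw [hlen, split] at h2
      simp only [sum_range_succ _ A, build] at h2 h5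
      simp only [sum_sub_distrib, sum_add_distrib, ← mul_sum, sum_const, card_range, nsmul_eq_mul]
      have h6 := mul_le_mul_of_nonneg_left h2 (show (0 : ℤ) ≤ D by omega)
      have h7 : (D : ℤ) = A + 1 + K := by exact_mod_cast hD
      push_cast at h6
      nlinarith
  · rintro ⟨x, g, h1, h2⟩
    let x0 : ℕ → ℤ := fun u => if u < L then x u else 0
    let g0 : ℕ → ℤ := fun a => if a < A then g a else K - ∑ a ∈ range A, (g a : ℤ)
    have hg : ∀ a, 0 ≤ g0 a := fun a => by
      simp only [g0]; split_ifs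
      · omega
      · zify at h2; omega
    have hg' : ∑ a ∈ range (A + 1), g0 a = K := by
      rw [sum_range_succ, sum_congr rfl fun a ha => if_pos (mem_range.1 ha)]; simp [g0]
    have h7 : (D : ℤ) = A + 1 + K := by exact_mod_cast hD
    have h3 : ∀ a, ∃ F : ℤ, a < A + 1 →
        D * F = D + 1 + g0 a - ∑ u ∈ range (L + 6), mult L A D μ u a * x0 u := by
      have h4 : ∀ a < A, (D : ℤ) ∣ D + 1 + g0 a - ∑ u ∈ range (L + 6), mult L A D μ u a * x0 u := by
        intro a ha
        obtain ⟨c, hc⟩ := h1 a ha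
        rw [lin x0 a ha, sum_congr rfl fun u hu => by simp only [x0, if_pos (mem_range.1 hu)]; rfl]
        exact ⟨1 - c, by simp only [g0, ha, if_true]; linarith⟩
      intro a
      by_cases ha : a < A
      · obtain ⟨c, hc⟩ := h4 a ha; exact ⟨c, fun _ => hc.symm⟩
      · have h5 := dvd_sum (s := range A) fun a ha => h4 a (mem_range.1 ha)
        obtain ⟨c, hc⟩ := h5
        have h6 := tot x0
        rw [sum_range_succ] at h6 hg'
        simp only [sum_sub_distrib, sum_add_distrib, sum_const, card_range, nsmul_eq_mul] at hc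
        refine ⟨A + 2 - c - ∑ u ∈ range (L + 6), x0 u, fun h => ?_⟩
        rw [show a = A by omega]
        nlinarith
    choose F hF using h3
    let f0 : ℕ → ℤ := fun v => if v < L + 6 then x0 v else
      F ((v - (L + 6)) / (D + 1)) + (∑ u ∈ range (L + 6), if par ((v - (L + 6)) % (D + 1)) <
        mult L A D μ u ((v - (L + 6)) / (D + 1)) then x0 u else 0) - 1 -
        if par ((v - (L + 6)) % (D + 1)) = 0 then g0 ((v - (L + 6)) / (D + 1)) else 0
    have f1 : ∀ a, ∀ p < D + 1, f0 (L + 6 + ((D + 1) * a + p)) = F a + (∑ u ∈ range (L + 6),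
        if par p < mult L A D μ u a then x0 u else 0) - 1 - if par p = 0 then g0 a else 0 := by
      intro a p hp
      simp only [f0, Nat.add_sub_cancel_left, (divmod hp).1, (divmod hp).2]
      rw [if_neg (by omega)]
    have f2 : ∀ a < A + 1, ∑ q ∈ range (D + 1), f0 (L + 6 + ((D + 1) * a + q)) = F a := by
      intro a ha
      rw [sum_congr rfl fun p hp => f1 a p (mem_range.1 hp), sum_par' hE fun p => F a +
        (∑ u ∈ range (L + 6), if p < mult L A D μ u a then x0 u else 0) - 1 -
        if p = 0 then g0 a else 0]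
      simp only [sum_sub_distrib, sum_add_distrib, ext x0 a ha, sum_const, card_range, nsmul_eq_mul,
        sum_ite_eq', mem_range, Nat.succ_pos, if_true]
      have := hF a ha
      push_cast; linarith
    let h : ℕ → ℤ := fun v => if v < L ∨ L + 6 ≤ v then 0 else if v < L + 2 then 2 else -1
    have h0 : ∀ φ : ℕ → ℤ, ∑ u ∈ range (L + 6 + (D + 1) * (A + 1)), φ u * h u =
        2 * φ L + 2 * φ (L + 1) - φ (L + 2) - φ (L + 3) - φ (L + 4) - φ (L + 5) := by
      intro φ
      rw [sum_range_add, sum_range_add, sum_eq_zero fun u hu => by simp [h, mem_range.1 hu],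
        sum_eq_zero (s := range (_ * _)) fun u hu => by simp [h]]
      simp [sum_range_succ, h]; ring
    obtain ⟨M, hM⟩ : ∃ M, M = ∑ u ∈ range (L + 6 + (D + 1) * (A + 1)), |f0 u| := ⟨_, rfl⟩
    have hM0 : 0 ≤ M := hM ▸ sum_nonneg fun _ _ => abs_nonneg _
    refine ⟨⟨mat_row _ _, fun i => ?_, fun i j => ?_⟩, fun v => f0 v + (2 * M + 1) * h v,
      fun v hv => ?_, ?_⟩
    · simp only [build, entry_mat, Rel, off]; omega
    · simp only [build, entry_mat, Rel, off]; omega
    · rw [hlen] at hv
      rw [nb _ v hv, sum_congr rfl (g := fun u => (if Rel L A D μ v u then f0 u else 0) +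
        (2 * M + 1) * ((if Rel L A D μ v u then 1 else 0) * h u)) fun u _ => by split_ifs <;> simp,
        sum_add_distrib, ← mul_sum, h0]
      by_cases e : v < L + 6
      · have a1 : |f0 v| ≤ M := hM ▸ single_le_sum (f := fun u => |f0 u|)
          (fun _ _ => abs_nonneg _) (mem_range.2 hv)
        have a2 : |∑ u ∈ range (L + 6 + (D + 1) * (A + 1)), if Rel L A D μ v u then f0 u else 0| ≤ M :=
          (abs_sum_le_sum_abs _ _).trans (hM ▸ sum_le_sum fun u _ => by split_ifs <;> simp)
        have a3 : ∀ i < 6, Rel L A D μ v (L + i) ↔ off L v (L + i) := fun i hi => by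
          simp only [Rel, off]; omega
        have a4 := a3 0 (by omega)
        rw [add_zero] at a4
        simp only [a4, a3 1 (by omega), a3 2 (by omega), a3 3 (by omega), a3 4 (by omega),
          a3 5 (by omega)]
        have a5 := offs (v := v) e
        nlinarith [abs_le.1 a1, abs_le.1 a2]
      · obtain ⟨a, ha, p, hp, rfl⟩ : ∃ a < A + 1, ∃ p < D + 1, v = L + 6 + ((D + 1) * a + p) :=
          ⟨(v - (L + 6)) / (D + 1), by rw [Nat.div_lt_iff_lt_mul (by omega), mul_comm]; omega,
            (v - (L + 6)) % (D + 1), Nat.mod_lt _ (by omega), by rw [Nat.div_add_mod]; omega⟩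
        have a1 := nY f0 a ha p hp
        have a2 : par p < D + 1 ∧ par (par p) = p := by unfold par; split_ifs <;> omega
        have a7 : ∑ u ∈ range (L + 6), (if p < mult L A D μ u a then f0 u else 0) =
            ∑ u ∈ range (L + 6), if p < mult L A D μ u a then x0 u else 0 :=
          sum_congr rfl fun u hu => by simp only [f0, if_pos (mem_range.1 hu)]
        rw [f2 a ha, f1 a _ a2.1, a2.2, a7] at a1
        have a3 : ∀ i < 6, Rel L A D μ (L + 6 + ((D + 1) * a + p)) (L + i) ↔
            p < mult L A D μ L a := fun i hi => by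
          have : mult L A D μ (L + i) a = mult L A D μ L a := by simp [mult]
          simp only [Rel, Nat.add_sub_cancel_left, (divmod hp).1, (divmod hp).2, this]; omega
        have a4 := a3 0 (by omega)
        rw [add_zero] at a4
        have a5 : h (L + 6 + ((D + 1) * a + p)) = 0 := by simp [h]
        have a6 := hg a
        simp only [a4, a3 1 (by omega), a3 2 (by omega), a3 3 (by omega), a3 4 (by omega),
          a3 5 (by omega), a5]
        split_ifs at a1 ⊢ <;> linarith
    · have a1 := h0 fun _ => 1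
      simp only [one_mul] at a1
      rw [hlen, sum_add_distrib, ← mul_sum, a1, split, sum_congr rfl fun a ha => f2 a (mem_range.1 ha),
        sum_congr (s₁ := range (L + 6)) rfl (g := x0) fun u hu => if_pos (mem_range.1 hu)]
      have a2 := sum_congr (s₁ := range (A + 1)) rfl fun a ha => hF a (mem_range.1 ha)
      simp only [sum_sub_distrib, sum_add_distrib, tot, hg', ← mul_sum, sum_const, card_range,
        nsmul_eq_mul] at a2
      have a3 : (0 : ℤ) < D := by omega
      simp only [build]
      push_cast at a2 ⊢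
      nlinarith

end

def mu (O : Occ) (n K u a : ℕ) : ℕ :=
  if a < 2 * n then (if a = u then 1 else 0) + if a / 2 = u / 2 then 1 else 0
  else if a < 2 * n + (K + 1) * n then (if (a - 2 * n) / (K + 1) = u / 2 then 1 else 0)
  else lsum O.length fun s =>
    if cl O s = a - (2 * n + (K + 1) * n) ∧ 2 * vr O s + sg O s = u then 1 else 0

def red0 (O : Occ) (n K m : ℕ) : List (List Bool) × ℕ :=
  build (2 * n) (2 * n + (K + 1) * n + m) (2 * n + (K + 1) * n + m + 1 + K) (mu O n K)

def red (φ : CNF) : List (List Bool) × ℕ :=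
  red0 (occ φ) (2 * size φ) (2 * (2 * size φ) + 2 * (occ φ).length + φ.length) φ.length

section
variable {α : Type} [Enc α] {O : α → Occ} {n K u a L A D : α → ℕ}

@[fun_prop] lemma mu_pt (hO : PT O) (hn : PT n) (hK : PT K) (hu : PT u) (ha : PT a) :
    PT fun x => mu (O x) (n x) (K x) (u x) (a x) := by
  unfold mu
  refine PP.ite (by fun_prop) (PT.add (PP.ite (by fun_prop) (by fun_prop) (by fun_prop))
    (PP.ite (by fun_prop) (by fun_prop) (by fun_prop))) (PP.ite (by fun_prop)
    (PP.ite (by fun_prop) (by fun_prop) (by fun_prop)) (PT.lsum (by fun_prop)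
    (PP.ite (by fun_prop) (by fun_prop) (by fun_prop))))

@[fun_prop] lemma mult_pt (hO : PT O) (hn : PT n) (hK : PT K) (hL : PT L) (hA : PT A) (hD : PT D)
    (hu : PT u) (ha : PT a) :
    PT fun x => mult (L x) (A x) (D x) (mu (O x) (n x) (K x)) (u x) (a x) := by
  unfold mult
  refine PP.ite (by fun_prop) (PP.ite (by fun_prop) (by fun_prop) (by fun_prop))
    (PT.sub hD (PP.ite (by fun_prop) (PT.lsum hA (by fun_prop)) (by fun_prop)))

lemma build_pt (hO : PT O) (hn : PT n) (hK : PT K) (hL : PT L) (hA : PT A) (hD : PT D) :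
    PT fun x => build (L x) (A x) (D x) (mu (O x) (n x) (K x)) := by
  unfold build
  refine PT.pair (PT.mat (by fun_prop) (PP.decide ?_)) (by fun_prop)
  unfold Rel off; fun_prop

end

lemma red_pt : PT red := by
  unfold red red0
  exact build_pt (by fun_prop) (by fun_prop) (by fun_prop) (by fun_prop) (by fun_prop) (by fun_prop)

section
variable {O : Occ} {n K : ℕ} (x : ℕ → ℤ)

lemma pair {v : ℕ} (hv : v < n) : ∑ u ∈ range (2 * n), ((if v = u / 2 then 1 else 0 : ℕ) : ℤ) * x u =
    x (2 * v) + x (2 * v + 1) := by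
  rw [sum_eq_add (2 * v) (2 * v + 1) (by omega) (fun c _ h => by rw [if_neg (by omega)]; simp)
    (by simp; omega) (by simp; omega), if_pos (by omega), if_pos (by omega)]
  simp

lemma sumB {a : ℕ} (ha : a < 2 * n) : ∑ u ∈ range (2 * n), mu O n K u a * x u =
    x a + (x (2 * (a / 2)) + x (2 * (a / 2) + 1)) := by
  rw [← pair x (show a / 2 < n by omega)]
  simp only [mu, if_pos ha, Nat.cast_add, add_mul, sum_add_distrib]
  simp [ha]

lemma sumC {v i : ℕ} (hv : v < n) (hi : i < K + 1) :
    ∑ u ∈ range (2 * n), mu O n K u (2 * n + ((K + 1) * v + i)) * x u = x (2 * v) + x (2 * v + 1) := by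
  rw [← pair x hv]
  refine sum_congr rfl fun u _ => ?_
  rw [mu, if_neg (by omega), if_pos (by nlinarith), Nat.add_sub_cancel_left, (divmod hi).1]

lemma sumD (hv : ∀ s < O.length, vr O s < n) (j : ℕ) :
    ∑ u ∈ range (2 * n), mu O n K u (2 * n + (K + 1) * n + j) * x u =
    ∑ s ∈ range O.length, if cl O s = j then x (2 * vr O s + sg O s) else 0 := by
  simp only [mu, if_neg (show ¬ 2 * n + (K + 1) * n + j < 2 * n by omega),
    if_neg (show ¬ 2 * n + (K + 1) * n + j < 2 * n + (K + 1) * n by omega), Nat.add_sub_cancel_left,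
    lsum_eq, Nat.cast_sum, sum_mul]
  rw [sum_comm]
  refine sum_congr rfl fun s hs => ?_
  have := hv s (mem_range.1 hs)
  have := sg_le O s
  rw [sum_eq_single (2 * vr O s + sg O s) (fun b _ e => by rw [if_neg (by omega)]; simp)
    (by simp; omega)]
  simp

lemma sumA {M : Type} [AddCommMonoid M] (g : ℕ → M) (m : ℕ) :
    ∑ a ∈ range (2 * n + (K + 1) * n + m), g a = ∑ a ∈ range (2 * n), g a +
      ∑ v ∈ range n, ∑ i ∈ range (K + 1), g (2 * n + ((K + 1) * v + i)) +
      ∑ j ∈ range m, g (2 * n + (K + 1) * n + j) := by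
  rw [sum_range_add, sum_range_add, sum_mul_range n (K + 1)]

lemma sum_cl' (m : ℕ) (f : ℕ → ℕ) (hf : ∀ s, f s ≤ 1) :
    ∑ j ∈ range m, ∑ s ∈ range O.length, (if cl O s = j then f s else 0) ≤ O.length := by
  rw [sum_comm]
  refine (sum_le_card_nsmul _ _ 1 fun s _ => ?_).trans (by simp)
  rw [sum_ite_eq]; split_ifs
  · exact hf s
  · omega

end

lemma correct (φ : CNF) : Sat φ ↔ ZDom (red φ) := by
  unfold red red0
  obtain ⟨n, hn⟩ : ∃ n, n = 2 * size φ := ⟨_, rfl⟩
  obtain ⟨K, hK⟩ : ∃ K, K = 2 * n + 2 * (occ φ).length + φ.length := ⟨_, rfl⟩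
  rw [← hn, ← hK]
  have hv : ∀ s < (occ φ).length, vr (occ φ) s < n := fun s hs => by have := vr_lt hs; omega
  rw [gen rfl (by have : (K + 1) * n = 2 * ((K + 1) * size φ) := by rw [hn]; ring
                  omega) fun u hu => ?_]
  swap
  · rw [sumA]
    have a1 : ∑ a ∈ range (2 * n), mu (occ φ) n K u a ≤ 2 * n * 2 :=
      (sum_le_card_nsmul _ _ 2 fun a ha => by
        rw [mu, if_pos (mem_range.1 ha)]; split_ifs <;> omega).trans (by simp)
    have a2 : ∑ v ∈ range n, ∑ i ∈ range (K + 1), mu (occ φ) n K u (2 * n + ((K + 1) * v + i)) ≤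
        (K + 1) * n := (sum_le_card_nsmul _ _ (K + 1) fun v hv =>
      (sum_le_card_nsmul _ _ 1 fun i hi => by
        simp only [mem_range] at hv hi
        rw [mu, if_neg (by omega), if_pos (by nlinarith)]; split_ifs <;> omega).trans
        (by simp)).trans (by simp [mul_comm])
    have a3 := sum_cl' (O := occ φ) φ.length (fun s => if 2 * vr (occ φ) s + sg (occ φ) s = u then 1
      else 0) fun s => by split_ifs <;> omega
    rw [sum_congr rfl (g := fun j => mu (occ φ) n K u (2 * n + (K + 1) * n + j)) fun j _ => by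
      rw [mu, if_neg (by omega), if_neg (by omega), lsum_eq, Nat.add_sub_cancel_left]
      exact sum_congr rfl fun s _ => by rw [ite_and]] at a3
    omega
  constructor
  · intro h
    obtain ⟨τ, σ, h1, h2⟩ := h.choice
    let y : ℕ → ℕ := fun u => if τ (u / 2) = u % 2 then 1 else 0
    have y1 : ∀ u, y u ≤ 1 := fun u => by simp only [y]; split_ifs <;> omega
    have y2 : ∀ v, (y (2 * v) : ℤ) + y (2 * v + 1) = 1 := fun v => by
      have := h1 v
      simp only [y, show 2 * v / 2 = v by omega, show (2 * v + 1) / 2 = v by omega]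
      split_ifs <;> omega
    let c : ℕ → ℕ := fun j => ∑ s ∈ range (occ φ).length,
      if cl (occ φ) s = j then y (2 * vr (occ φ) s + sg (occ φ) s) else 0
    have c1 : ∀ j < φ.length, 1 ≤ c j := fun j hj => by
      obtain ⟨b1, b2, b3⟩ := h2 j hj
      refine le_trans ?_ (single_le_sum (fun _ _ => Nat.zero_le _) (mem_range.2 b1))
      have := sg_le (occ φ) (σ j)
      simp only [y, if_pos b2, show (2 * vr (occ φ) (σ j) + sg (occ φ) (σ j)) / 2 = vr (occ φ) (σ j) by
        omega]
      rw [if_pos (by omega)]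
    refine ⟨fun u => y u, fun a => if a < 2 * n then y a else if a < 2 * n + (K + 1) * n then 0 else
      c (a - (2 * n + (K + 1) * n)) - 1, fun a ha => ?_, ?_⟩
    · refine Dvd.intro 0 ?_
      beta_reduce
      split_ifs with e1 e2
      · rw [sumB _ e1, y2]; ring
      · obtain ⟨v, hv, i, hi, rfl⟩ : ∃ v < n, ∃ i < K + 1, a = 2 * n + ((K + 1) * v + i) :=
          ⟨(a - 2 * n) / (K + 1), by rw [Nat.div_lt_iff_lt_mul (by omega), mul_comm n]; omega,
            (a - 2 * n) % (K + 1), Nat.mod_lt _ (by omega), by rw [Nat.div_add_mod]; omega⟩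
        rw [sumC _ hv hi, y2]; simp
      · obtain ⟨j, rfl⟩ := Nat.exists_eq_add_of_le (not_lt.1 e2)
        rw [sumD _ hv, Nat.add_sub_cancel_left, Nat.cast_sub (c1 j (by omega))]
        simp [c]
    · rw [sumA, sum_congr rfl fun a ha => if_pos (mem_range.1 ha),
        sum_eq_zero (s := range n) fun v hv => sum_eq_zero fun i hi => by
          simp only [mem_range] at hv hi
          rw [if_neg (by omega), if_pos (by nlinarith)],
        sum_congr (s₁ := range φ.length) rfl (g := fun j => c j - 1) fun j _ => by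
          rw [if_neg (by omega), if_neg (by omega), Nat.add_sub_cancel_left]]
      have a1 : (range (2 * n)).sum y ≤ 2 * n :=
        (sum_le_card_nsmul _ _ 1 fun a _ => y1 a).trans (by simp)
      have a2 : ∑ j ∈ range φ.length, (c j - 1) ≤ (occ φ).length :=
        (sum_le_sum fun j _ => Nat.sub_le _ _).trans (sum_cl' _ _ fun s => y1 _)
      omega
  · rintro ⟨x, g, h1, h2⟩
    obtain ⟨D, hD⟩ : ∃ D, D = 2 * n + (K + 1) * n + φ.length + 1 + K := ⟨_, rfl⟩
    rw [← hD] at h1
    have g1 : ∀ a < 2 * n + (K + 1) * n + φ.length, ∀ b < 2 * n + (K + 1) * n + φ.length, a ≠ b →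
        g a + g b ≤ K := fun a ha b hb e => by
      rw [← sum_pair e]
      exact (sum_le_sum_of_subset (by simp [insert_subset_iff, ha, hb])).trans h2
    have g2 : ∀ v < n, (D : ℤ) ∣ x (2 * v) + x (2 * v + 1) - 1 := fun v hv => by
      obtain ⟨i, hi, e⟩ : ∃ i < K + 1, g (2 * n + ((K + 1) * v + i)) = 0 := by
        by_contra! hc
        have a1 := card_nsmul_le_sum (range (K + 1)) (fun i => g (2 * n + ((K + 1) * v + i))) 1
          fun i hi => Nat.pos_of_ne_zero (hc i (mem_range.1 hi))
        have a2 := single_le_sum (f := fun v => ∑ i ∈ range (K + 1), g (2 * n + ((K + 1) * v + i)))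
          (fun _ _ => Nat.zero_le _) (mem_range.2 hv)
        rw [sumA] at h2
        simp only [card_range, smul_eq_mul] at a1
        omega
      have := h1 (2 * n + ((K + 1) * v + i)) (by nlinarith)
      rwa [sumC _ hv hi, e, Nat.cast_zero, sub_zero] at this
    have g3 : ∀ u < 2 * n, (D : ℤ) ∣ x u - g u := fun u hu => by
      have a1 := h1 u (by omega)
      rw [sumB _ hu] at a1
      have := dvd_sub a1 (g2 (u / 2) (by omega))
      rwa [show x u + (x (2 * (u / 2)) + x (2 * (u / 2) + 1)) - 1 - g u -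
        (x (2 * (u / 2)) + x (2 * (u / 2) + 1) - 1) = x u - g u by ring] at this
    have g4 : ∀ v < n, g (2 * v) + g (2 * v + 1) = 1 := fun v hv => by
      have a1 := dvd_sub (dvd_sub (g2 v hv) (g3 (2 * v) (by omega))) (g3 (2 * v + 1) (by omega))
      have a2 := g1 (2 * v) (by omega) (2 * v + 1) (by omega) (by omega)
      have := Int.eq_zero_of_abs_lt_dvd a1 (abs_lt.2 (by omega))
      omega
    refine sat_of_set (fun s => g (2 * vr (occ φ) s + sg (occ φ) s) ≠ 0) (fun j hj => ?_) ?_
    · by_contra! hc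
      have a1 := h1 (2 * n + (K + 1) * n + j) (by omega)
      rw [sumD _ hv] at a1
      have a2 : (D : ℤ) ∣ ∑ s ∈ range (occ φ).length,
          if cl (occ φ) s = j then x (2 * vr (occ φ) s + sg (occ φ) s) else 0 := by
        refine dvd_sum fun s hs => ?_
        split_ifs with e
        · have b1 := hv s (mem_range.1 hs)
          have b2 := sg_le (occ φ) s
          have b3 := g3 (2 * vr (occ φ) s + sg (occ φ) s) (by omega)
          by_cases b4 : g (2 * vr (occ φ) s + sg (occ φ) s) = 0
          · simpa [b4] using b3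
          · exact absurd e (hc s (mem_range.1 hs) b4)
        · simp
      have a3 := (single_le_sum (f := g) (fun _ _ => Nat.zero_le _)
        (mem_range.2 (show 2 * n + (K + 1) * n + j < _ by omega))).trans h2
      have := Int.eq_zero_of_abs_lt_dvd (dvd_sub a2 a1) (abs_lt.2 (by omega))
      omega
    · intro s hs t ht a1 a2 e
      have b1 := g4 _ (hv s hs)
      have b2 := sg_le (occ φ) s
      have b3 := sg_le (occ φ) t
      rw [← e] at a2
      by_contra hc
      rcases (by omega : sg (occ φ) s = 0 ∧ sg (occ φ) t = 1 ∨ sg (occ φ) s = 1 ∧ sg (occ φ) t = 0) with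
        ⟨c1, c2⟩ | ⟨c1, c2⟩ <;> simp only [c1, c2, add_zero] at a1 a2 <;> omega

theorem result : NPHard (Lang ZDom) := (hard_sat.red red_pt correct).npHard

end Pool.Agent.Results.MP_f6aff2_lc.NPHard
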